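import Mathlib

/-! Counting: the subset sums of (n+1)^s + 2^-(n+2) are distinct, so there are exponentially many
values below a level, and at most polynomially many of them are taken by a sequence that grows at
least like a power. -/

open Filter Topology Finset
open scoped ENNReal

namespace Pool.Agent.H10.LSC

/-- the binary fractions determine the set -/
lemma frac_inj {M : ℕ} {S S' : Finset ℕ} (hS : S ⊆ range M) (hS' : S' ⊆ range M)
    (h : ∑ n ∈ S, ((1 : ℝ) / 2) ^ (n + 2) = ∑ n ∈ S', ((1 : ℝ) / 2) ^ (n + 2)) : S = S' := by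
  have key : ∀ U : Finset ℕ, U ⊆ range M →
      ((∑ i ∈ U.image (fun n => M - 1 - n), 2 ^ i : ℕ) : ℝ)
        = 2 ^ (M + 1) * ∑ n ∈ U, ((1 : ℝ) / 2) ^ (n + 2) := by
    intro U hU
    rw [Finset.sum_image, Finset.mul_sum]
    · push_cast
      refine Finset.sum_congr rfl fun n hn => ?_
      have hn' : n < M := by simpa using hU hn
      have e : M + 1 = (M - 1 - n) + (n + 2) := by omega
      rw [e, pow_add, mul_assoc, ← mul_pow]
      norm_num
    · intro x hx y hy hxy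
      have hx' : x < M := by simpa using hU hx
      have hy' : y < M := by simpa using hU hy
      simp only at hxy
      omega
  have h2 : ((∑ i ∈ S.image (fun n => M - 1 - n), 2 ^ i : ℕ) : ℝ)
      = ((∑ i ∈ S'.image (fun n => M - 1 - n), 2 ^ i : ℕ) : ℝ) := by
    rw [key S hS, key S' hS', h]
  have h3 := Finset.geomSum_injective (le_refl 2) (Nat.cast_injective h2)
  ext n
  constructor
  · intro hn
    have hm : M - 1 - n ∈ S'.image (fun n => M - 1 - n) := h3 ▸ Finset.mem_image_of_mem _ hn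
    obtain ⟨m, hm, e⟩ := Finset.mem_image.1 hm
    have h5 : n < M := by simpa using hS hn
    have h6 : m < M := by simpa using hS' hm
    have : m = n := by omega
    exact this ▸ hm
  · intro hn
    have hm : M - 1 - n ∈ S.image (fun n => M - 1 - n) := h3.symm ▸ Finset.mem_image_of_mem _ hn
    obtain ⟨m, hm, e⟩ := Finset.mem_image.1 hm
    have h5 : n < M := by simpa using hS' hn
    have h6 : m < M := by simpa using hS hm
    have : m = n := by omega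
    exact this ▸ hm

lemma frac_lt (M : ℕ) {S : Finset ℕ} (hS : S ⊆ range M) :
    ∑ n ∈ S, ((1 : ℝ) / 2) ^ (n + 2) < 1 := by
  have h1 : ∑ n ∈ S, ((1 : ℝ) / 2) ^ (n + 2) ≤ ∑ n ∈ range M, ((1 : ℝ) / 2) ^ (n + 2) :=
    Finset.sum_le_sum_of_subset_of_nonneg hS fun i _ _ => by positivity
  have h2 : ∀ M : ℕ, ∑ n ∈ range M, ((1 : ℝ) / 2) ^ (n + 2) = 1 / 2 - (1 / 2) ^ (M + 1) := by
    intro M
    induction M with
    | zero => norm_num
    | succ k ih => rw [Finset.sum_range_succ, ih]; ring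
  have h3 : (0 : ℝ) < (1 / 2) ^ (M + 1) := by positivity
  rw [h2 M] at h1
  linarith

lemma w_inj {s M : ℕ} {S S' : Finset ℕ} (hS : S ⊆ range M) (hS' : S' ⊆ range M)
    (h : ∑ n ∈ S, (((n : ℝ) + 1) ^ s + (1 / 2) ^ (n + 2))
      = ∑ n ∈ S', (((n : ℝ) + 1) ^ s + (1 / 2) ^ (n + 2))) : S = S' := by
  rw [Finset.sum_add_distrib, Finset.sum_add_distrib] at h
  have i1 : ∑ n ∈ S, ((n : ℝ) + 1) ^ s = ((∑ n ∈ S, (n + 1) ^ s : ℕ) : ℝ) := by push_cast; rfl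
  have i2 : ∑ n ∈ S', ((n : ℝ) + 1) ^ s = ((∑ n ∈ S', (n + 1) ^ s : ℕ) : ℝ) := by push_cast; rfl
  have f1 := frac_lt M hS
  have f2 := frac_lt M hS'
  have g1 : (0 : ℝ) ≤ ∑ n ∈ S, ((1 : ℝ) / 2) ^ (n + 2) := Finset.sum_nonneg fun i _ => by positivity
  have g2 : (0 : ℝ) ≤ ∑ n ∈ S', ((1 : ℝ) / 2) ^ (n + 2) :=
    Finset.sum_nonneg fun i _ => by positivity
  rw [i1, i2] at h
  have hlt1 : ((∑ n ∈ S, (n + 1) ^ s : ℕ) : ℝ) < ((∑ n ∈ S', (n + 1) ^ s : ℕ) : ℝ) + 1 := by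
    linarith
  have hlt2 : ((∑ n ∈ S', (n + 1) ^ s : ℕ) : ℝ) < ((∑ n ∈ S, (n + 1) ^ s : ℕ) : ℝ) + 1 := by
    linarith
  have hlt1' : (∑ n ∈ S, (n + 1) ^ s : ℕ) < (∑ n ∈ S', (n + 1) ^ s : ℕ) + 1 := by exact_mod_cast hlt1
  have hlt2' : (∑ n ∈ S', (n + 1) ^ s : ℕ) < (∑ n ∈ S, (n + 1) ^ s : ℕ) + 1 := by exact_mod_cast hlt2
  have e : (∑ n ∈ S, (n + 1) ^ s : ℕ) = (∑ n ∈ S', (n + 1) ^ s : ℕ) := by omega
  rw [e] at h
  exact frac_inj hS hS' (by linarith)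

lemma w_pos (s n : ℕ) : (0 : ℝ) < ((n : ℝ) + 1) ^ s + (1 / 2) ^ (n + 2) := by positivity

lemma sum_w_le {s M : ℕ} {S : Finset ℕ} (hS : S ⊆ range M) :
    ∑ n ∈ S, (((n : ℝ) + 1) ^ s + (1 / 2) ^ (n + 2)) ≤ 2 * (M : ℝ) ^ (s + 1) := by
  have h1 : ∑ n ∈ S, (((n : ℝ) + 1) ^ s + (1 / 2) ^ (n + 2))
      ≤ ∑ n ∈ range M, (((n : ℝ) + 1) ^ s + (1 / 2) ^ (n + 2)) :=
    Finset.sum_le_sum_of_subset_of_nonneg hS fun i _ _ => (w_pos s i).le
  have h2 : ∑ n ∈ range M, (((n : ℝ) + 1) ^ s + (1 / 2) ^ (n + 2))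
      ≤ ∑ n ∈ range M, (2 * (M : ℝ) ^ s) := by
    refine Finset.sum_le_sum fun n hn => ?_
    have hn' : n < M := by simpa using hn
    have hM : (1 : ℝ) ≤ M := by exact_mod_cast (by omega : 1 ≤ M)
    have h3 : ((n : ℝ) + 1) ^ s ≤ (M : ℝ) ^ s := by
      apply pow_le_pow_left₀ (by positivity)
      exact_mod_cast hn'
    have h4 : ((1 : ℝ) / 2) ^ (n + 2) ≤ 1 := pow_le_one₀ (by norm_num) (by norm_num)
    have h5 : (1 : ℝ) ≤ (M : ℝ) ^ s := one_le_pow₀ hM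
    linarith
  have h6 : ∑ n ∈ range M, (2 * (M : ℝ) ^ s) = 2 * (M : ℝ) ^ (s + 1) := by
    rw [Finset.sum_const, Finset.card_range, nsmul_eq_mul, pow_succ]; ring
  linarith

/-- The growth comparison. -/
lemma growth (c1 e1 C e2 : ℝ) (hc1 : 0 < c1) (he1 : 0 < e1) (hC : 0 < C) (he2 : 0 < e2) :
    ∀ᶠ Λ : ℝ in atTop,
      Real.exp (Λ ^ (e1 / 2)) + (C * Λ) ^ e2 + 1 ≤ Real.exp (Real.log 2 * (c1 * Λ ^ e1 - 1)) := by
  have hb : 0 < e1 / 2 := by positivity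
  have ht : Tendsto (fun Λ : ℝ => Λ ^ (e1 / 2)) atTop atTop := tendsto_rpow_atTop hb
  -- polynomial against exponential
  have hp : ∀ᶠ t : ℝ in atTop, t ^ (e2 / (e1 / 2)) * C ^ e2 ≤ Real.exp t := by
    have h1 : Tendsto (fun t : ℝ => t ^ (e2 / (e1 / 2)) * Real.exp (-1 * t)) atTop (𝓝 0) :=
      tendsto_rpow_mul_exp_neg_mul_atTop_nhds_zero _ 1 one_pos
    have h2 : 0 < (C ^ e2)⁻¹ := by positivity
    filter_upwards [h1.eventually (gt_mem_nhds h2)] with t ht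
    have h3 : 0 < C ^ e2 := by positivity
    have h4 : t ^ (e2 / (e1 / 2)) * Real.exp (-1 * t) * (C ^ e2) < 1 := by
      have := mul_lt_mul_of_pos_right ht h3
      rwa [inv_mul_cancel₀ h3.ne'] at this
    have h5 : Real.exp (-1 * t) * Real.exp t = 1 := by rw [← Real.exp_add]; simp
    calc t ^ (e2 / (e1 / 2)) * C ^ e2
        = (t ^ (e2 / (e1 / 2)) * Real.exp (-1 * t) * (C ^ e2)) * Real.exp t := by
          rw [mul_assoc (t ^ (e2 / (e1 / 2)))]
          rw [mul_comm (Real.exp (-1 * t)) (C ^ e2), ← mul_assoc, mul_assoc _ (Real.exp (-1 * t)),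
            h5, mul_one]
      _ ≤ 1 * Real.exp t := by
          apply mul_le_mul_of_nonneg_right h4.le (Real.exp_pos t).le
      _ = Real.exp t := one_mul _
  have hq : ∀ᶠ t : ℝ in atTop, t + 2 ≤ Real.log 2 * (c1 * t ^ 2 - 1) := by
    have hl : 0 < Real.log 2 := Real.log_pos (by norm_num)
    filter_upwards [eventually_ge_atTop (1 : ℝ),
      eventually_ge_atTop ((3 + Real.log 2) / (Real.log 2 * c1))] with t h1 h2
    have h3 : 3 + Real.log 2 ≤ t * (Real.log 2 * c1) := by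
      rwa [div_le_iff₀ (by positivity)] at h2
    have h4 : (3 + Real.log 2) * t ≤ Real.log 2 * (c1 * t ^ 2) := by
      have := mul_le_mul_of_nonneg_right h3 (by linarith : 0 ≤ t)
      calc (3 + Real.log 2) * t ≤ t * (Real.log 2 * c1) * t := this
        _ = Real.log 2 * (c1 * t ^ 2) := by ring
    nlinarith
  filter_upwards [ht.eventually hp, ht.eventually hq, eventually_ge_atTop (0 : ℝ)] with Λ h1 h2 h0
  have e2' : (C * Λ) ^ e2 = (Λ ^ (e1 / 2)) ^ (e2 / (e1 / 2)) * C ^ e2 := by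
    rw [Real.mul_rpow hC.le h0, ← Real.rpow_mul h0, mul_comm]
    congr 2
    field_simp
  have e3 : (Λ ^ (e1 / 2)) ^ 2 = Λ ^ e1 := by
    rw [← Real.rpow_natCast, ← Real.rpow_mul h0]
    congr 1
    push_cast; ring
  rw [e3] at h2
  rw [← e2'] at h1
  have h3 : Real.exp (Λ ^ (e1 / 2) + 2) ≤ Real.exp (Real.log 2 * (c1 * Λ ^ e1 - 1)) :=
    Real.exp_le_exp.2 h2
  have h4 : (3 : ℝ) ≤ Real.exp 2 := by
    have := Real.add_one_le_exp (2 : ℝ); linarith
  have h5 : (1 : ℝ) ≤ Real.exp (Λ ^ (e1 / 2)) := Real.one_le_exp (Real.rpow_nonneg h0 _)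
  rw [Real.exp_add] at h3
  have h6 : 3 * Real.exp (Λ ^ (e1 / 2)) ≤ Real.exp (Λ ^ (e1 / 2)) * Real.exp 2 := by
    rw [mul_comm]; exact mul_le_mul_of_nonneg_left h4 (by positivity)
  linarith

theorem stC' : ∀ (s : ℕ) (A r c a : ℝ) (L : ℕ → ℝ≥0∞), 0 < A → 0 < r → 0 < c → 0 < a →
    (∀ k : ℕ, 1 ≤ k → ENNReal.ofReal (c * (k : ℝ) ^ a) ≤ L k) →
    ∃ b L0 : ℝ, 0 < b ∧ ∀ Λ : ℝ, L0 ≤ Λ → ∃ T : Finset ℝ,
      (∀ l ∈ T, 0 < l ∧ l ≤ Λ ∧ (∃ S : Finset ℕ, S.Nonempty ∧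
          l = A * (∑ n ∈ S, (((n : ℝ) + 1) ^ s + (1 / 2) ^ (n + 2))) ^ r) ∧
        ∀ k : ℕ, 1 ≤ k → L k ≠ ENNReal.ofReal l) ∧ Real.exp (Λ ^ b) ≤ (T.card : ℝ) := by
  classical
  intro s A r c a L hA hr hc ha hL
  -- constants
  set e0 : ℝ := ((s : ℝ) + 1)⁻¹ with he0
  have he0p : 0 < e0 := by positivity
  set e1 : ℝ := r⁻¹ * e0 with he1
  have he1p : 0 < e1 := by positivity
  set c1 : ℝ := ((A⁻¹) ^ r⁻¹ / 2) ^ e0 with hc1
  have hc1p : 0 < c1 := by positivity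
  obtain ⟨L0, hL0⟩ := eventually_atTop.1 (growth c1 e1 c⁻¹ a⁻¹ hc1p he1p (by positivity)
    (by positivity))
  refine ⟨e1 / 2, max L0 1, by positivity, ?_⟩
  intro Λ hΛ
  have hΛ1 : 1 ≤ Λ := le_trans (le_max_right _ _) hΛ
  have hΛ0 : 0 < Λ := by linarith
  have hg := hL0 Λ (le_trans (le_max_left _ _) hΛ)
  set x : ℝ := c1 * Λ ^ e1 with hx
  have hx0 : 0 ≤ x := by positivity
  set M : ℕ := ⌊x⌋₊ with hM
  have hMx : (M : ℝ) ≤ x := Nat.floor_le hx0
  have hxM : x < M + 1 := Nat.lt_floor_add_one x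
  -- x ^ (s+1) = (Λ/A)^(1/r) / 2
  have hxs : x ^ (s + 1) = (Λ / A) ^ r⁻¹ / 2 := by
    have e3 : x = (((A⁻¹) ^ r⁻¹ / 2) * Λ ^ r⁻¹) ^ e0 := by
      rw [Real.mul_rpow (by positivity) (by positivity), ← Real.rpow_mul hΛ0.le]
    rw [e3, ← Real.rpow_natCast, ← Real.rpow_mul (by positivity)]
    have e4 : e0 * ((s + 1 : ℕ) : ℝ) = 1 := by
      rw [he0]; push_cast; field_simp
    rw [e4, Real.rpow_one, div_eq_mul_inv Λ A, Real.mul_rpow hΛ0.le (by positivity)]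
    ring
  have hMs : 2 * (M : ℝ) ^ (s + 1) ≤ (Λ / A) ^ r⁻¹ := by
    have := pow_le_pow_left₀ (by positivity : (0 : ℝ) ≤ M) hMx (s + 1)
    rw [hxs] at this
    linarith
  set f : Finset ℕ → ℝ := fun S =>
    A * (∑ n ∈ S, (((n : ℝ) + 1) ^ s + (1 / 2) ^ (n + 2))) ^ r with hf
  set P : Finset (Finset ℕ) := (range M).powerset.erase ∅ with hP
  have hPm : ∀ S ∈ P, S ⊆ range M ∧ S.Nonempty := by
    intro S hS
    rw [hP, Finset.mem_erase, Finset.mem_powerset] at hS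
    exact ⟨hS.2, Finset.nonempty_iff_ne_empty.2 hS.1⟩
  have hpos : ∀ S : Finset ℕ, S.Nonempty →
      0 < ∑ n ∈ S, (((n : ℝ) + 1) ^ s + (1 / 2) ^ (n + 2)) := fun S hS =>
    Finset.sum_pos (fun i _ => w_pos s i) hS
  have hfinj : Set.InjOn f P := by
    intro S hS S' hS' h
    obtain ⟨h1, h2⟩ := hPm S hS
    obtain ⟨h3, h4⟩ := hPm S' hS'
    have h5 := mul_left_cancel₀ hA.ne' h
    have h6 := (Real.rpow_left_inj (hpos S h2).le (hpos S' h4).le hr.ne').1 h5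
    exact w_inj h1 h3 h6
  set V : Finset ℝ := P.image f with hV
  have hVc : V.card = 2 ^ M - 1 := by
    rw [hV, Finset.card_image_of_injOn hfinj, hP, Finset.card_erase_of_mem (by simp),
      Finset.card_powerset, Finset.card_range]
  set K : ℕ := ⌊(c⁻¹ * Λ) ^ a⁻¹⌋₊ with hK
  set B : Finset ℝ := (Finset.Icc 1 K).image (fun k => (L k).toReal) with hB
  have hBc : B.card ≤ K := by
    refine (Finset.card_image_le).trans ?_
    simp
  refine ⟨V \ B, ?_, ?_⟩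
  · intro l hl
    rw [Finset.mem_sdiff, hV, Finset.mem_image] at hl
    obtain ⟨⟨S, hS, rfl⟩, hlB⟩ := hl
    obtain ⟨h1, h2⟩ := hPm S hS
    have hp := hpos S h2
    have hle : f S ≤ Λ := by
      have h3 := (sum_w_le (s := s) h1).trans hMs
      have h4 := Real.rpow_le_rpow hp.le h3 hr.le
      rw [← Real.rpow_mul (by positivity), inv_mul_cancel₀ hr.ne', Real.rpow_one] at h4
      calc f S ≤ A * (Λ / A) := mul_le_mul_of_nonneg_left h4 hA.le
        _ = Λ := by field_simp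
    have hfp : 0 < f S := by positivity
    refine ⟨hfp, hle, ⟨S, h2, rfl⟩, ?_⟩
    intro k hk hLk
    apply hlB
    rw [hB, Finset.mem_image]
    refine ⟨k, ?_, ?_⟩
    · rw [Finset.mem_Icc]
      refine ⟨hk, ?_⟩
      rw [hK]
      apply Nat.le_floor
      have h3 := hL k hk
      rw [hLk] at h3
      have h4 : c * (k : ℝ) ^ a ≤ f S := (ENNReal.ofReal_le_ofReal_iff hfp.le).1 h3
      have h5 : (k : ℝ) ^ a ≤ c⁻¹ * Λ := by
        rw [inv_mul_eq_div, le_div_iff₀ hc]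
        linarith [mul_comm c ((k : ℝ) ^ a)]
      have h6 := Real.rpow_le_rpow (by positivity) h5 (by positivity : 0 ≤ a⁻¹)
      rwa [← Real.rpow_mul (by positivity), mul_inv_cancel₀ ha.ne', Real.rpow_one] at h6
    · rw [hLk, ENNReal.toReal_ofReal hfp.le]
  · have h1 : V.card - B.card ≤ (V \ B).card := Finset.le_card_sdiff _ _
    have h2 : (V.card : ℝ) ≤ (V \ B).card + K := by
      have : V.card ≤ (V \ B).card + K := by omega
      exact_mod_cast this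
    have h3 : ((2 : ℝ) ^ M - 1) ≤ V.card := by
      rw [hVc, Nat.cast_sub Nat.one_le_two_pow]
      push_cast
      exact le_refl _
    have h4 : (K : ℝ) ≤ (c⁻¹ * Λ) ^ a⁻¹ := Nat.floor_le (by positivity)
    have h5 : Real.exp (Real.log 2 * (x - 1)) ≤ (2 : ℝ) ^ M := by
      rw [← Real.rpow_def_of_pos (by norm_num), ← Real.rpow_natCast]
      exact Real.rpow_le_rpow_of_exponent_le (by norm_num) (by linarith)
    linarith

end Pool.Agent.H10.LSC
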